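import Mathlib
import Pool.Agent.H25.CanonDefs
import Pool.Agent.H25.Canon

set_option autoImplicit false

namespace Pool.Agent.Results.MP_6d0d7d_lc.Iff

open Pool.Agent.H25.CanonDefs

theorem result (X : Type) [Countable X] (G : Subgroup (Equiv.Perm X)) (_hG : ClosedGroup G) :
    ExtremelyAmenable G ↔ Canonisation G :=
  ⟨Pool.Agent.H25.Canon.canonise, Pool.Agent.H25.Canon.amenable⟩

end Pool.Agent.Results.MP_6d0d7d_lc.Iff
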